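import Pool.Agent.N926.Tri.G
import Pool.Agent.N926.Sup2.Cg

set_option autoImplicit false

namespace Pool.Agent.Results.MP_20e244_nt.AllFive

open Finset Polynomial

/-- `r ≡ s (mod p²)`: `r - s = p² u` with `u` a rational whose denominator is prime to `p` -/
def Congr (p : ℕ) (r s : ℚ) : Prop := ∃ u : ℚ, ¬ p ∣ u.den ∧ r - s = (p : ℚ) ^ 2 * u

/-- `T_n(b,c)`, the coefficient of `x^n` in `(x² + b x + c)^n` -/
noncomputable def T (b c : ℤ) (n : ℕ) : ℤ := ((X ^ 2 + C b * X + C c : ℤ[X]) ^ n).coeff n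

/-- the Catalan number `C_j = binom(2j,j)/(j+1)`, as a rational -/
def Cat (j : ℕ) : ℚ := ((2 * j).choose j : ℚ) / (j + 1)

/-- `(p/3)`: `1` if `p ≡ 1 (mod 3)` and `-1` otherwise -/
def leg3 (p : ℕ) : ℚ := if p % 3 = 1 then 1 else -1

open Pool.Agent.N926.F54 Pool.Agent.N926.F37 Pool.Agent.N926.Sup2

/-- **Q1**: all five congruences hold for every prime `p > 3`. -/
theorem result (p : ℕ) [Fact p.Prime] (p3 : 3 < p) :
    Congr p (∑ j ∈ range p, (T 1 1 j : ℚ) * ((2 * j).choose j : ℚ) / 12 ^ j)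
      ((3 + 3 ^ (p - 1)) / 4 * leg3 p) ∧
    Congr p (∑ j ∈ range ((p - 1) / 2 + 1), (T 4 1 (2 * j) : ℚ) * ((2 * j).choose j : ℚ) / 16 ^ j) 1 ∧
    Congr p (∑ j ∈ range ((p - 1) / 2 + 1), (T 4 1 (2 * j) : ℚ) * Cat j / 16 ^ j)
      (4 / 3 * ((legendreSym p 3 : ℚ) - p * (legendreSym p (-1) : ℚ))) ∧
    Congr p (∑ j ∈ range ((p - 1) / 2 + 1), (T 3 4 (2 * j) : ℚ) * ((2 * j).choose j : ℚ) / 4 ^ j)
      ((7 - 3 ^ p) / 4 * (legendreSym p (-1) : ℚ)) ∧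
    Congr p (∑ j ∈ range ((p - 1) / 2 + 1), (T 8 9 (2 * j) : ℚ) * ((2 * j).choose j : ℚ) / 16 ^ j)
      (legendreSym p 3 : ℚ) := by
  have hp : p.Prime := Fact.out
  have h2 : p ≠ 2 := by omega
  obtain ⟨h, hh⟩ : ∃ h, p = 2 * h + 1 := ⟨p / 2, by have := hp.eq_two_or_odd; omega⟩
  have hr : (p - 1) / 2 = h := by omega
  rw [hr]
  refine ⟨?_, ?_, ?_, ?_, ?_⟩
  · refine congr_of_Dv (Dv_eq ?_ (Pool.Agent.N926.Tri.first (p := p) p3))
    have : (Pool.Agent.N926.Tri.e3 p : ℚ) = leg3 p := by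
      unfold Pool.Agent.N926.Tri.e3 leg3
      split_ifs <;> norm_num
    rw [this]
    rfl
  · refine congr_of_Dv (Dv_eq ?_ ((Pool.Agent.N926.Tri.lower (p := p) h2 hh 1).add (Pool.Agent.N926.Tri.Ks1 h2 hh)))
    have : ∀ j, T 4 1 (2 * j) = Pool.Agent.N926.Tri.U 1 (2 * j) := fun j => Pool.Agent.N926.Tri.T_41 (2 * j)
    simp only [this]
    ring
  · refine congr_of_Dv (Dv_eq ?_ (Pool.Agent.N926.Tri.third (p := p) p3 hh))
    have : ∀ j, T 4 1 (2 * j) = Pool.Agent.N926.Tri.U 1 (2 * j) := fun j => Pool.Agent.N926.Tri.T_41 (2 * j)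
    simp only [this]
    rfl
  · refine congr_of_Dv (Dv_eq ?_ ((Pool.Agent.N926.Tri.lower (p := p) h2 hh (-4)).add (Pool.Agent.N926.Tri.Ks4 p3 hh)))
    have : ∀ j, (T 3 4 (2 * j) : ℚ) * ((2 * j).choose j : ℚ) / 4 ^ j =
        (Pool.Agent.N926.Tri.U (-4) (2 * j) : ℚ) * ((2 * j).choose j : ℚ) / 16 ^ j := by
      intro j
      have h5 := congrArg (fun z : ℤ => (z : ℚ)) (Pool.Agent.N926.Tri.T_34 j)
      push_cast at h5
      rw [← h5]
      have h6 : (16 : ℚ) ^ j = 4 ^ j * 4 ^ j := by rw [← mul_pow]; norm_num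
      have h7 : (4 : ℚ) ^ j ≠ 0 := by positivity
      rw [h6]
      field_simp
      rw [mul_comm]
      rfl
    simp only [this]
    ring
  · refine congr_of_Dv (Dv_eq ?_ ((Pool.Agent.N926.Tri.lower (p := p) h2 hh 3).add (Pool.Agent.N926.Tri.Ks3 p3 hh)))
    have : ∀ j, T 8 9 (2 * j) = Pool.Agent.N926.Tri.U 3 (2 * j) := fun j => Pool.Agent.N926.Tri.T_89 (2 * j)
    simp only [this]
    ring

end Pool.Agent.Results.MP_20e244_nt.AllFive
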